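import Pool.Agent.P8H81.LP.Stm2
import Pool.Agent.P8H81.LP.Sup

/-!
# Project LPB (helper81), package SUB (helper43)
-/

set_option autoImplicit false

open MeasureTheory ProbabilityTheory Filter Finset

namespace Pool.Agent.P8H43.LPB

open Pool.Agent.P8H81.LP
open Pool.Agent.P8H81.LP.SupAux (glue glue_meas glue_map shift_map Wr_add Wr_path Wr_congr Wr_pos
  Wr_trans)

lemma pos_mem_box {N : ℕ} (σ : Fin N → Fin 2 × Bool) (n : ℕ) : pos σ n ∈ Pool.Agent.P8H81.LP.box N := by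
  unfold Pool.Agent.P8H81.LP.box
  rw [Fintype.mem_piFinset]
  intro i
  rw [Finset.mem_Icc, ← abs_le]
  unfold pos
  rw [Finset.sum_apply]
  calc |∑ k ∈ univ.filter (fun k : Fin N => k.val < n), stp (σ k) i|
      ≤ ∑ k ∈ univ.filter (fun k : Fin N => k.val < n), |stp (σ k) i| :=
        Finset.abs_sum_le_sum_abs _ _
    _ ≤ ∑ k ∈ univ.filter (fun k : Fin N => k.val < n), (1 : ℤ) :=
        Finset.sum_le_sum fun k _ => by
          unfold stp
          rw [Pi.single_apply]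
          split_ifs <;> simp
    _ ≤ ∑ k : Fin N, (1 : ℤ) :=
        Finset.sum_le_sum_of_subset_of_nonneg (Finset.filter_subset _ _) fun _ _ _ => by norm_num
    _ = N := by simp

lemma wt_eq (β : ℝ) (N : ℕ) (w : ℕ → (Fin 2 → ℤ) → ℝ) (σ : Fin N → Fin 2 × Bool) :
    wt β N w σ = Real.exp (SupAux.SS N (Vb β w) 0 σ) := by
  unfold wt SupAux.SS Vb
  simp only [zero_add]

lemma wt_meas (β : ℝ) (N : ℕ) (σ : Fin N → Fin 2 × Bool) :
    Measurable (fun w : ℕ → (Fin 2 → ℤ) → ℝ => wt β N w σ) := by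
  unfold wt
  apply Real.measurable_exp.comp
  fun_prop

lemma QQ_meas (β : ℝ) (N : ℕ) (x : Fin 2 → ℤ) :
    Measurable (fun w : ℕ → (Fin 2 → ℤ) → ℝ => QQ N (wt β N w) x) := by
  unfold QQ
  exact (Finset.measurable_sum _ fun σ _ => wt_meas β N σ).const_mul _

lemma QQ_nonneg (β : ℝ) (N : ℕ) (x : Fin 2 → ℤ) (w : ℕ → (Fin 2 → ℤ) → ℝ) :
    0 ≤ QQ N (wt β N w) x := by
  unfold QQ
  have : 0 ≤ ∑ σ ∈ univ.filter (fun σ : Fin N → Fin 2 × Bool => pos σ N = x), wt β N w σ :=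
    Finset.sum_nonneg fun σ _ => (Real.exp_pos _).le
  positivity

lemma QQ_le (β : ℝ) (N : ℕ) (x : Fin 2 → ℤ) (w : ℕ → (Fin 2 → ℤ) → ℝ) :
    QQ N (wt β N w) x ≤ W β N 0 w := by
  unfold QQ W
  rw [Wr_path]
  apply mul_le_mul_of_nonneg_left _ (by positivity)
  calc ∑ σ ∈ univ.filter (fun σ : Fin N → Fin 2 × Bool => pos σ N = x), wt β N w σ
      ≤ ∑ σ : Fin N → Fin 2 × Bool, wt β N w σ :=
        Finset.sum_le_sum_of_subset_of_nonneg (Finset.filter_subset _ _)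
          fun σ _ _ => (Real.exp_pos _).le
    _ = _ := Finset.sum_congr rfl fun σ _ => wt_eq β N w σ

lemma W_glue (β : ℝ) (N M : ℕ) (w₁ w₂ : ℕ → (Fin 2 → ℤ) → ℝ) :
    W β (N + M) 0 (glue N (w₁, w₂)) = ∑ x ∈ Pool.Agent.P8H81.LP.box N, QQ N (wt β N w₁) x * W β M x w₂ := by
  have hSS : ∀ σ : Fin N → Fin 2 × Bool,
      SupAux.SS N (Vb β (glue N (w₁, w₂))) 0 σ = SupAux.SS N (Vb β w₁) 0 σ := by
    intro σ
    unfold SupAux.SS
    refine Finset.sum_congr rfl fun n hn => ?_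
    rw [Finset.mem_Icc] at hn
    unfold Vb glue
    rw [if_pos hn.2]
  have hWM : ∀ z : Fin 2 → ℤ, Wr M (fun n => Vb β (glue N (w₁, w₂)) (n + N)) z = W β M z w₂ := by
    intro z
    unfold W
    apply Wr_congr
    intro n hn _
    funext x
    unfold Vb glue
    rw [if_neg (by omega), Nat.add_sub_cancel]
  have e1 : W β (N + M) 0 (glue N (w₁, w₂)) = ((4 : ℝ) ^ N)⁻¹ *
      ∑ σ : Fin N → Fin 2 × Bool, wt β N w₁ σ * W β M (pos σ N) w₂ := by
    unfold W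
    rw [Wr_add]
    refine congrArg (fun t : ℝ => ((4 : ℝ) ^ N)⁻¹ * t) (Finset.sum_congr rfl fun σ _ => ?_)
    rw [hSS, hWM, zero_add, wt_eq]
    rfl
  rw [e1, ← Finset.sum_fiberwise_of_maps_to (s := univ) (t := Pool.Agent.P8H81.LP.box N)
    (g := fun σ : Fin N → Fin 2 × Bool => pos σ N) (fun σ _ => pos_mem_box σ N), Finset.mul_sum]
  refine Finset.sum_congr rfl fun x _ => ?_
  unfold QQ
  rw [mul_assoc, Finset.sum_mul]
  congr 1
  refine Finset.sum_congr rfl fun σ hσ => ?_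
  rw [(Finset.mem_filter.1 hσ).2]

lemma rpow_sum_le {ι : Type} (s : Finset ι) (f : ι → ℝ) (hf : ∀ i, 0 ≤ f i) (θ : ℝ)
    (h0 : 0 < θ) (h1 : θ < 1) : (∑ i ∈ s, f i) ^ θ ≤ ∑ i ∈ s, f i ^ θ := by
  classical
  induction s using Finset.induction_on with
  | empty => simp [Real.zero_rpow h0.ne']
  | insert a s ha ih =>
    rw [Finset.sum_insert ha, Finset.sum_insert ha]
    exact (Real.rpow_add_le_add_rpow (hf a) (Finset.sum_nonneg fun i _ => hf i) h0.le h1.le).trans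
      (add_le_add le_rfl ih)

lemma rpow_int {Ω : Type} [MeasurableSpace Ω] {P : Measure Ω} [IsProbabilityMeasure P]
    {f g : Ω → ℝ} (hf : Measurable f) (h0 : ∀ ω, 0 ≤ f ω) (hfg : ∀ ω, f ω ≤ g ω)
    (hg : Integrable g P) {θ : ℝ} (hθ : 0 < θ) (hθ1 : θ < 1) :
    Integrable (fun ω => f ω ^ θ) P := by
  refine Integrable.mono' ((integrable_const (1 : ℝ)).add hg)
    (hf.pow_const θ).aestronglyMeasurable (Filter.Eventually.of_forall fun ω => ?_)
  rw [Real.norm_eq_abs, abs_of_nonneg (Real.rpow_nonneg (h0 ω) θ)]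
  have a1 := h0 ω
  have a2 := hfg ω
  show _ ≤ 1 + g ω
  rcases le_total (f ω) 1 with h | h
  · have := Real.rpow_le_one (h0 ω) h hθ.le
    linarith
  · have := Real.rpow_le_rpow_of_exponent_le h hθ1.le
    rw [Real.rpow_one] at this
    linarith

theorem step (hInt : TaskInt) {hc : (Fin 2 → ℤ) → ℝ} (μ : Measure ((Fin 2 → ℤ) → ℝ))
    (hμ : Good hc μ) (β θ : ℝ) (h0 : 0 < θ) (h1 : θ < 1) (N M : ℕ) :
    ∫ w, (W β (N + M) 0 w) ^ θ ∂(PP μ) ≤ AA μ β θ N * ∫ w, (W β M 0 w) ^ θ ∂(PP μ) := by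
  have := hμ.prob
  have : IsProbabilityMeasure (PP μ) := by unfold PP; infer_instance
  have hWm : ∀ K x, Measurable (W β K x) := fun K x => (hInt μ hμ β K).1 x
  have hWi : ∀ K x, Integrable (W β K x) (PP μ) := fun K x =>
    ((hInt μ hμ β K).2.1 x).integrable (by norm_num)
  have hWp : ∀ K x w, 0 < W β K x w := fun K x w => Wr_pos _ _ _
  have hWθ : ∀ K x, Integrable (fun w => (W β K x w) ^ θ) (PP μ) := fun K x =>
    rpow_int (hWm K x) (fun w => (hWp K x w).le) (fun _ => le_rfl) (hWi K x) h0 h1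
  have hQθ : ∀ x, Integrable (fun w => (QQ N (wt β N w) x) ^ θ) (PP μ) := fun x =>
    rpow_int (QQ_meas β N x) (QQ_nonneg β N x) (QQ_le β N x) (hWi N 0) h0 h1
  have hmp : MeasurePreserving (glue N) ((PP μ).prod (PP μ)) (PP μ) :=
    ⟨glue_meas N, glue_map μ N⟩
  -- translation
  have htr : ∀ x : Fin 2 → ℤ, ∫ w, (W β M x w) ^ θ ∂(PP μ) = ∫ w, (W β M 0 w) ^ θ ∂(PP μ) := by
    intro x
    have hsm : Measurable
        (fun (w : ℕ → (Fin 2 → ℤ) → ℝ) (n : ℕ) (y : Fin 2 → ℤ) => w n (y + x)) := by fun_prop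
    have h2 : ∫ w, (W β M x w) ^ θ ∂(PP μ) =
        ∫ w, (W β M 0 (fun n y => w n (y + x))) ^ θ ∂(PP μ) := by
      refine integral_congr_ae (Filter.Eventually.of_forall fun w => ?_)
      have : W β M x w = W β M 0 (fun n y => w n (y + x)) := by
        unfold W
        rw [Wr_trans]
        rfl
      simp only [this]
    have h3 := integral_map (μ := PP μ) hsm.aemeasurable
      (f := fun w => (W β M 0 w) ^ θ)
      (by rw [shift_map μ hμ x]; exact (hWθ M 0).aestronglyMeasurable)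
    rw [shift_map μ hμ x] at h3
    rw [h2]
    exact h3.symm
  -- pointwise inequality
  have key : ∀ w : (ℕ → (Fin 2 → ℤ) → ℝ) × (ℕ → (Fin 2 → ℤ) → ℝ),
      (W β (N + M) 0 (glue N w)) ^ θ ≤
        ∑ x ∈ Pool.Agent.P8H81.LP.box N, (QQ N (wt β N w.1) x) ^ θ * (W β M x w.2) ^ θ := by
    rintro ⟨w₁, w₂⟩
    rw [W_glue]
    refine (rpow_sum_le (Pool.Agent.P8H81.LP.box N) (fun x => QQ N (wt β N w₁) x * W β M x w₂)
      (fun x => mul_nonneg (QQ_nonneg _ _ _ _) (hWp _ _ _).le) θ h0 h1).trans (le_of_eq ?_)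
    refine Finset.sum_congr rfl fun x _ => ?_
    exact Real.mul_rpow (QQ_nonneg _ _ _ _) (hWp _ _ _).le
  have hI2 : ∀ x, Integrable (fun w : (ℕ → (Fin 2 → ℤ) → ℝ) × (ℕ → (Fin 2 → ℤ) → ℝ) =>
      (QQ N (wt β N w.1) x) ^ θ * (W β M x w.2) ^ θ) ((PP μ).prod (PP μ)) :=
    fun x => (hQθ x).mul_prod (hWθ M x)
  have hI3 : Integrable (fun w : (ℕ → (Fin 2 → ℤ) → ℝ) × (ℕ → (Fin 2 → ℤ) → ℝ) =>
      ∑ x ∈ Pool.Agent.P8H81.LP.box N, (QQ N (wt β N w.1) x) ^ θ * (W β M x w.2) ^ θ) ((PP μ).prod (PP μ)) :=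
    integrable_finsetSum _ fun x _ => hI2 x
  have hI4 : Integrable (fun w => (W β (N + M) 0 (glue N w)) ^ θ) ((PP μ).prod (PP μ)) :=
    hmp.integrable_comp_of_integrable (hWθ (N + M) 0)
  have hmono := integral_mono hI4 hI3 key
  have hR : ∫ w, (W β (N + M) 0 (glue N w)) ^ θ ∂((PP μ).prod (PP μ)) =
      ∫ w, (W β (N + M) 0 w) ^ θ ∂(PP μ) := by
    have h2 := integral_map (μ := (PP μ).prod (PP μ)) (glue_meas N).aemeasurable
      (f := fun w => (W β (N + M) 0 w) ^ θ)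
      (by rw [hmp.map_eq]; exact (hWθ (N + M) 0).aestronglyMeasurable)
    rw [hmp.map_eq] at h2
    exact h2.symm
  have hS : ∫ w : (ℕ → (Fin 2 → ℤ) → ℝ) × (ℕ → (Fin 2 → ℤ) → ℝ),
      ∑ x ∈ Pool.Agent.P8H81.LP.box N, (QQ N (wt β N w.1) x) ^ θ * (W β M x w.2) ^ θ ∂((PP μ).prod (PP μ)) =
      AA μ β θ N * ∫ w, (W β M 0 w) ^ θ ∂(PP μ) := by
    rw [integral_finsetSum _ (fun x _ => hI2 x)]
    unfold AA
    rw [Finset.sum_mul]
    refine Finset.sum_congr rfl fun x _ => ?_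
    rw [integral_prod_mul (μ := PP μ) (ν := PP μ) (fun w => (QQ N (wt β N w) x) ^ θ)
      (fun w => (W β M x w) ^ θ), htr]
  rw [hR, hS] at hmono
  exact hmono

theorem sub : S_SUB := by
  intro _ hInt hc μ hμ β θ _ h0 h1 N _ m
  have := hμ.prob
  have : IsProbabilityMeasure (PP μ) := by unfold PP; infer_instance
  have hA : 0 ≤ AA μ β θ N := by
    unfold AA
    exact Finset.sum_nonneg fun x _ => integral_nonneg fun w =>
      Real.rpow_nonneg (QQ_nonneg β N x w) θ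
  induction m with
  | zero =>
    rw [Nat.zero_mul, pow_zero]
    have : ∀ w : ℕ → (Fin 2 → ℤ) → ℝ, (W β 0 0 w) ^ θ = 1 := by
      intro w
      have e : W β 0 0 w = 1 := rfl
      rw [e, Real.one_rpow]
    simp only [this]
    simp
  | succ m ih =>
    have e : (m + 1) * N = N + m * N := by ring
    rw [e, pow_succ']
    exact (step hInt μ hμ β θ h0 h1 N (m * N)).trans (mul_le_mul_of_nonneg_left ih hA)

end Pool.Agent.P8H43.LPB
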